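import Pool.Agent.W361.LQ.Defs

/-!
# Project LQ (MP_3235d4_lc): LQ-BACK, core
-/

set_option autoImplicit false

namespace Pool.Agent.W924.LQ.BackCore

open Pool.Agent.W361.LQ

theorem nsmul_div {m : ℕ} (hm : 0 < m) (x : ℝ) :
    m • ((x / m : ℝ) : UnitAddCircle) = ((x : ℝ) : UnitAddCircle) := by
  have hm' : (m : ℝ) ≠ 0 := by exact_mod_cast hm.ne'
  rw [← AddCircle.coe_nsmul, nsmul_eq_mul, mul_div_cancel₀ _ hm']

theorem core (hN : ∀ N k a b : ℕ, 0 < N →
    (near N k a b ↔ ‖((((a : ℝ) / N : ℝ) : UnitAddCircle) - (((b : ℝ) / N : ℝ) : UnitAddCircle))‖ ≤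
      (k : ℝ) / N)) (Y : Type) [MetricSpace Y] (y : ℕ → Y)
    (hy : DenseRange y) (f : C(Y, UnitAddCircle)) (C : List (ℕ × ℕ)) (d m : ℕ) (hm : 0 < m)
    (hF : Fine y f C d) (E : List (ℕ × ℕ)) (e : ℕ) (hC : Cond (LtY y) (GtY y) C d m E e) :
    ∃ g : C(Y, UnitAddCircle), ∀ x, m • g x = f x := by
  have hm' : (0 : ℝ) < m := by exact_mod_cast hm
  have hm1 : (1 : ℝ) ≤ m := by exact_mod_cast hm
  set ε : ℝ := 1 / ((e : ℝ) + 1) with hε
  set δ : ℝ := 1 / ((d : ℝ) + 1) with hδ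
  have he0 : (0 : ℝ) < (e : ℝ) + 1 := by positivity
  have hd0 : (0 : ℝ) < (d : ℝ) + 1 := by positivity
  have hε0 : 0 < ε := by positivity
  have hεδ : ε ≤ δ := by
    have : (d : ℝ) ≤ e := by exact_mod_cast hC.le
    exact one_div_le_one_div_of_le hd0 (by linarith)
  -- covering
  have h1 : ∀ a : Y, ∃ p ∈ E, dist a (y p.1) ≤ ε := by
    have hcl : IsClosed (⋃ p ∈ {p | p ∈ E}, Metric.closedBall (y p.1) ε) := by
      refine Set.Finite.isClosed_biUnion (List.finite_toSet E) fun p _ => Metric.isClosed_closedBall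
    have hsub : Set.range y ⊆ ⋃ p ∈ {p | p ∈ E}, Metric.closedBall (y p.1) ε := by
      rintro _ ⟨j, rfl⟩
      obtain ⟨p, hp, hgt⟩ := hC.cover j
      unfold GtY at hgt
      simp only [not_lt, Nat.cast_one] at hgt
      exact Set.mem_biUnion hp (Metric.mem_closedBall.2 hgt)
    intro a
    have ha : a ∈ closure (Set.range y) := hy a
    have ha2 := (hcl.closure_subset_iff.2 hsub) ha
    obtain ⟨p, hp, hpa⟩ := Set.mem_iUnion₂.1 ha2
    exact ⟨p, hp, Metric.mem_closedBall.1 hpa⟩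
  -- local roots
  have h2 : ∀ a : Y, ∃ p, p ∈ E ∧ dist a (y p.1) ≤ ε ∧ ∃ u : UnitAddCircle, m • u = f a ∧
      ‖u - ((((p.2 : ℝ) / (16 * m : ℕ) : ℝ)) : UnitAddCircle)‖ ≤ 7 / (32 * m) := by
    intro a
    obtain ⟨p, hp, hpa⟩ := h1 a
    refine ⟨p, hp, hpa, ?_⟩
    set v : UnitAddCircle := ((((p.2 : ℝ) / (16 * m : ℕ) : ℝ)) : UnitAddCircle) with hv
    have hmv : m • v = (((p.2 : ℝ) / 16 : ℝ) : UnitAddCircle) := by
      rw [← nsmul_div hm ((p.2 : ℝ) / 16), hv]
      congr 2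
      push_cast
      rw [div_div]
    obtain ⟨c, hc, hlt, hnear⟩ := hC.root p hp
    unfold LtY at hlt
    simp only [Nat.cast_one] at hlt
    have hn := (hN 16 2 p.2 c.2 (by norm_num)).1 hnear
    push_cast at hn
    have hd1 : dist a (y c.1) ≤ 2 / ((d : ℝ) + 1) := by
      have h3 := dist_triangle a (y p.1) (y c.1)
      have h4 : 2 / ((d : ℝ) + 1) = δ + δ := by rw [hδ]; ring
      rw [h4]
      linarith
    have h3 := hF.unif a (y c.1) hd1
    have h4 := hF.val c hc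
    have h5 : ‖f a - m • v‖ ≤ 7 / 32 := by
      rw [hmv]
      have e1 : f a - (((p.2 : ℝ) / 16 : ℝ) : UnitAddCircle) = (f a - f (y c.1)) +
          (f (y c.1) - (((c.2 : ℝ) / 16 : ℝ) : UnitAddCircle)) -
          ((((p.2 : ℝ) / 16 : ℝ) : UnitAddCircle) - (((c.2 : ℝ) / 16 : ℝ) : UnitAddCircle)) := by
        abel
      rw [e1]
      refine (norm_sub_le _ _).trans ?_
      have := norm_add_le (f a - f (y c.1)) (f (y c.1) - (((c.2 : ℝ) / 16 : ℝ) : UnitAddCircle))
      linarith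
    obtain ⟨η, hη1, hη2⟩ := lift (f a - m • v)
    refine ⟨v + ((η / m : ℝ) : UnitAddCircle), ?_, ?_⟩
    · rw [nsmul_add, nsmul_div hm, hη1]
      abel
    · rw [add_sub_cancel_left]
      refine (norm_coe_le _).trans ?_
      rw [abs_div, abs_of_pos hm', hη2, div_le_div_iff₀ hm' (by positivity)]
      nlinarith
  choose P hPE hPa U hU1 hU2 using h2
  -- local continuity
  have h3 : ∀ a b : Y, dist a b < ε → ‖f b - f a‖ < 14 / 32 → ‖U b - U a‖ ≤ ‖f b - f a‖ := by
    intro a b hab hf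
    have hlt : LtY y ((P a).1, (P b).1, 3, e) := by
      unfold LtY
      simp only
      push_cast
      have e1 : (3 : ℝ) / ((e : ℝ) + 1) = ε + ε + ε := by rw [hε]; ring
      rw [e1]
      have := dist_triangle4 (y (P a).1) a b (y (P b).1)
      have h4 := hPa a
      have h5 := hPa b
      rw [dist_comm] at h4
      linarith
    have hn := (hN (16 * m) 2 (P a).2 (P b).2 (by positivity)).1
      (hC.cons _ (hPE a) _ (hPE b) hlt)
    have e2 : (((2 : ℕ) : ℝ) / ((16 * m : ℕ) : ℝ)) = 4 / (32 * m) := by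
      push_cast
      field_simp
      norm_num
    rw [e2] at hn
    have h18 : ‖U b - U a‖ ≤ 18 / (32 * m) := by
      have e3 : U b - U a = (U b - (((((P b).2 : ℝ) / (16 * m : ℕ) : ℝ)) : UnitAddCircle)) -
          ((((((P a).2 : ℝ) / (16 * m : ℕ) : ℝ)) : UnitAddCircle) -
            (((((P b).2 : ℝ) / (16 * m : ℕ) : ℝ)) : UnitAddCircle)) -
          (U a - (((((P a).2 : ℝ) / (16 * m : ℕ) : ℝ)) : UnitAddCircle)) := by abel
      rw [e3]
      refine (norm_sub_le _ _).trans ?_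
      have h6 := norm_sub_le (U b - (((((P b).2 : ℝ) / (16 * m : ℕ) : ℝ)) : UnitAddCircle))
        ((((((P a).2 : ℝ) / (16 * m : ℕ) : ℝ)) : UnitAddCircle) -
            (((((P b).2 : ℝ) / (16 * m : ℕ) : ℝ)) : UnitAddCircle))
      have h7 := hU2 a
      have h8 := hU2 b
      have e4 : (18 : ℝ) / (32 * m) = 7 / (32 * m) + 4 / (32 * m) + 7 / (32 * m) := by ring
      rw [e4]
      linarith
    obtain ⟨η, hη1, hη2⟩ := lift (f b - f a)
    have hDm : m • (U b - U a - ((η / m : ℝ) : UnitAddCircle)) = 0 := by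
      rw [nsmul_sub, nsmul_sub, hU1, hU1, nsmul_div hm, hη1, sub_self]
    have hηm : ‖((η / m : ℝ) : UnitAddCircle)‖ ≤ |η| / m := by
      refine (norm_coe_le _).trans ?_
      rw [abs_div, abs_of_pos hm']
    have hDn : ‖U b - U a - ((η / m : ℝ) : UnitAddCircle)‖ < 1 / (m : ℝ) := by
      refine (norm_sub_le _ _).trans_lt ?_
      have e4 : (1 : ℝ) / m = 18 / (32 * m) + (14 / 32) / m := by
        field_simp
        norm_num
      rw [e4]
      have h9 : |η| / m < (14 / 32) / m := by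
        rw [hη2]
        exact div_lt_div_of_pos_right hf hm'
      linarith
    have hD := tor hDm hDn
    rw [sub_eq_zero] at hD
    rw [hD]
    refine hηm.trans ?_
    rw [hη2]
    exact div_le_self (norm_nonneg _) hm1
  refine ⟨⟨U, ?_⟩, hU1⟩
  rw [Metric.continuous_iff]
  intro a ε₀ hε₀
  obtain ⟨δ₁, hδ₁, hf⟩ := Metric.continuous_iff.1 f.continuous a (min ε₀ (14 / 32))
    (lt_min hε₀ (by norm_num))
  refine ⟨min δ₁ ε, lt_min hδ₁ hε0, fun b hb => ?_⟩
  have h4 := hf b (hb.trans_le (min_le_left _ _))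
  rw [dist_eq_norm] at h4 ⊢
  have h5 := h3 a b (by rw [dist_comm]; exact hb.trans_le (min_le_right _ _))
    (h4.trans_le (min_le_right _ _))
  exact h5.trans_lt (h4.trans_le (min_le_left _ _))

end Pool.Agent.W924.LQ.BackCore
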