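import Pool.Agent.W361.LQ.Stm
import Pool.Agent.W924.LQ.BackCore

/-!
# Project LQ (MP_3235d4_lc): LQ-BACK
-/

set_option autoImplicit false

namespace Pool.Agent.W924.LQ.BACK

open Pool.Agent.W361.LQ

theorem main : S_BACK := by
  intro hN Y _ _ y hy f C d m hm hF E e hC
  exact Pool.Agent.W924.LQ.BackCore.core hN Y y hy f C d m hm hF E e hC

end Pool.Agent.W924.LQ.BACK
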